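import Mathlib
import Pool.Agent.P.MP_7ab5f9_al.UAMain

set_option autoImplicit false

open Pool.Agent.P.MP_7ab5f9_al.UA

theorem Pool.Agent.Results.MP_7ab5f9_al.EdgeAlgebras.result
    (S : Sig) (A : Alg S) [Finite A.car] [Nonempty A.car] (hA : HasEdgeTerm A)
    (F : Alg S → Prop) (hF : IsFormation F) (hsub : ∀ B, F B → form A B) :
    ∃ K : Alg S, Finite K.car ∧ Nonempty K.car ∧ ∀ B, F B ↔ form K B :=
  main A hA F hF hsub
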